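import Pool.Graph.R_pool_sql_team_seeded_63374d34.N990.OS.Defs

/-!
Project SLB (helper586), problem MP_7f377f_mp: the abstract Osterwalder-Schrader reconstruction
(task OSA), by helper870.
-/

set_option autoImplicit false

open MeasureTheory Set Filter Topology
open scoped Classical InnerProductSpace ComplexConjugate

namespace Pool.Agent.H870.SLB

open Pool.Agent.N990.OS (IsSemi)

/-- The statement of task OSA. -/
def S_OSA : Prop := ∀ {X : Type} (K : X → X → ℂ) (sh : ℝ → X → X) (o : X),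
  (∀ x y, K x y = conj (K y x)) →
  (∀ F : X →₀ ℂ, 0 ≤ (F.sum fun a x => F.sum fun b y => conj x * y * K a b).re) →
  (∀ x, sh 0 x = x) → (∀ s t, 0 ≤ s → 0 ≤ t → ∀ x, sh (s + t) x = sh s (sh t x)) →
  (∀ t, 0 ≤ t → ∀ x y, K (sh t x) y = K x (sh t y)) →
  (∀ x y, ∃ M : ℝ, ∀ t, 0 ≤ t → ‖K x (sh t y)‖ ≤ M) →
  (∀ x y, ContinuousOn (fun t => K x (sh t y)) (Ici 0)) →
  (∀ t, 0 ≤ t → sh t o = o) → K o o = 1 →
  ∃ (H : Type) (_ : NormedAddCommGroup H) (_ : InnerProductSpace ℂ H) (_ : CompleteSpace H)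
    (J : X → H) (T : ℝ → H →L[ℂ] H),
    (∀ x y, inner ℂ (J x) (J y) = K x y) ∧
    Dense (Submodule.span ℂ (range J) : Set H) ∧
    (∀ t, 0 ≤ t → ∀ x, T t (J x) = J (sh t x)) ∧ IsSemi T (J o)

/-! ### The growth lemma -/

theorem grow (u : ℕ → ℝ) (p B : ℝ) (hp : 0 ≤ p)
    (h : ∀ k, u k ^ 2 ≤ p * u (k + 1)) (hB : ∀ k, u k ≤ B) : u 0 ≤ p := by
  by_contra hc
  push Not at hc
  rcases hp.eq_or_lt with h0 | h0
  · have h1 := h 0
    rw [← h0, zero_mul] at h1
    have h2 : 0 < u 0 := by rw [h0]; exact hc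
    nlinarith
  · set q := u 0 / p with hq
    have hq1 : 1 < q := (one_lt_div h0).2 hc
    have key : ∀ k, p * q ^ (k + 1) ≤ u k := by
      intro k
      induction k with
      | zero =>
        rw [zero_add, pow_one, hq, mul_div_cancel₀ _ h0.ne']
      | succ k ih =>
        have h1 := h k
        have h2 : (p * q ^ (k + 1)) ^ 2 ≤ u k ^ 2 := pow_le_pow_left₀ (by positivity) ih 2
        have h3 : (p * q ^ (k + 1)) ^ 2 = p * (p * q ^ ((k + 1) * 2)) := by ring
        have h4 : p * (p * q ^ ((k + 1) * 2)) ≤ p * u (k + 1) := by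
          rw [← h3]; exact h2.trans h1
        have h5 : p * q ^ ((k + 1) * 2) ≤ u (k + 1) := le_of_mul_le_mul_left h4 h0
        refine le_trans ?_ h5
        refine mul_le_mul_of_nonneg_left ?_ hp
        exact pow_le_pow_right₀ hq1.le (by omega)
    obtain ⟨k, hk⟩ := pow_unbounded_of_one_lt (B / p) hq1
    have h1 := (key k).trans (hB k)
    have h2 : q ^ k ≤ q ^ (k + 1) := pow_le_pow_right₀ hq1.le (Nat.le_succ k)
    have h3 : B < p * q ^ k := by
      rw [div_lt_iff₀ h0] at hk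
      linarith
    have h4 : p * q ^ k ≤ p * q ^ (k + 1) := mul_le_mul_of_nonneg_left h2 hp
    linarith

/-! ### The semigroup on a dense subspace -/

section Semi

variable {V H : Type} [AddCommGroup V] [Module ℂ V] [NormedAddCommGroup H] [InnerProductSpace ℂ H]
  [CompleteSpace H]

/-- The assumptions on the dense inclusion and the shifts. -/
structure Sg (A : V →ₗ[ℂ] H) (σ : ℝ → V →ₗ[ℂ] V) : Prop where
  dense : DenseRange A
  zero : ∀ c, σ 0 c = c
  add : ∀ s t, 0 ≤ s → 0 ≤ t → ∀ c, σ (s + t) c = σ s (σ t c)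
  symm : ∀ t, 0 ≤ t → ∀ c d, inner ℂ (A (σ t c)) (A d) = inner ℂ (A c) (A (σ t d))
  bdd : ∀ c, ∃ M : ℝ, ∀ t, 0 ≤ t → ‖inner ℂ (A c) (A (σ t c))‖ ≤ M
  cont : ∀ c, ContinuousOn (fun t => inner ℂ (A c) (A (σ t c))) (Ici 0)

variable {A : V →ₗ[ℂ] H} {σ : ℝ → V →ₗ[ℂ] V}

theorem Sg.inner_two (h : Sg A σ) {s t : ℝ} (hs : 0 ≤ s) (ht : 0 ≤ t) (c : V) :
    inner ℂ (A (σ s c)) (A (σ t c)) = inner ℂ (A c) (A (σ (s + t) c)) := by
  rw [h.symm s hs, h.add s t hs ht]

theorem Sg.norm_sq (h : Sg A σ) {t : ℝ} (ht : 0 ≤ t) (c : V) :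
    ‖A (σ t c)‖ ^ 2 = (inner ℂ (A c) (A (σ (t + t) c))).re := by
  rw [← h.inner_two ht ht]
  exact (norm_sq_eq_re_inner (𝕜 := ℂ) (A (σ t c)))

theorem Sg.bound (h : Sg A σ) {t : ℝ} (ht : 0 ≤ t) (c : V) : ‖A (σ t c)‖ ≤ 1 * ‖A c‖ := by
  rw [one_mul]
  obtain ⟨M, hM⟩ := h.bdd c
  have h1 : ∀ s, 0 ≤ s → ‖A (σ s c)‖ ≤ M + 1 := by
    intro s hs
    have h2 := h.norm_sq hs c
    have h3 : (inner ℂ (A c) (A (σ (s + s) c))).re ≤ M :=
      (Complex.re_le_norm _).trans (hM _ (by linarith))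
    nlinarith [norm_nonneg (A (σ s c)), sq_nonneg (‖A (σ s c)‖ - 1)]
  have h4 := grow (fun k : ℕ => ‖A (σ (2 ^ k * t) c)‖) ‖A c‖ (M + 1) (norm_nonneg _) ?_ (fun k => h1 _ (by positivity))
  · simpa using h4
  · intro k
    have h5 : 0 ≤ 2 ^ k * t := by positivity
    show ‖A (σ (2 ^ k * t) c)‖ ^ 2 ≤ ‖A c‖ * ‖A (σ (2 ^ (k + 1) * t) c)‖
    rw [h.norm_sq h5]
    have h6 : 2 ^ k * t + 2 ^ k * t = 2 ^ (k + 1) * t := by ring
    rw [h6]
    exact (Complex.re_le_norm _).trans (norm_inner_le_norm _ _)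

/-- The operators. -/
noncomputable def TT (A : V →ₗ[ℂ] H) (σ : ℝ → V →ₗ[ℂ] V) (t : ℝ) : H →L[ℂ] H :=
  (A ∘ₗ σ t).extendOfNorm A

theorem Sg.tt_apply (h : Sg A σ) {t : ℝ} (ht : 0 ≤ t) (c : V) : TT A σ t (A c) = A (σ t c) :=
  LinearMap.extendOfNorm_eq h.dense ⟨1, fun c => h.bound ht c⟩ c

theorem Sg.tt_norm (h : Sg A σ) {t : ℝ} (ht : 0 ≤ t) : ‖TT A σ t‖ ≤ 1 :=
  LinearMap.opNorm_extendOfNorm_le h.dense zero_le_one fun c => h.bound ht c

theorem Sg.tt_zero (h : Sg A σ) : TT A σ 0 = 1 := by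
  ext x
  refine DenseRange.induction_on h.dense x (isClosed_eq (by fun_prop) (by fun_prop)) fun c => ?_
  rw [h.tt_apply le_rfl, h.zero]
  rfl

theorem Sg.tt_add (h : Sg A σ) (s t : ℝ) (hs : 0 ≤ s) (ht : 0 ≤ t) :
    TT A σ (s + t) = TT A σ s * TT A σ t := by
  ext x
  rw [mul_apply_eq_comp]
  refine DenseRange.induction_on h.dense x (isClosed_eq (by fun_prop) (by fun_prop)) fun c => ?_
  rw [h.tt_apply (by linarith), h.tt_apply ht, h.tt_apply hs, h.add s t hs ht]

theorem Sg.tt_symm (h : Sg A σ) {t : ℝ} (ht : 0 ≤ t) (x y : H) :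
    inner ℂ (TT A σ t x) y = inner ℂ x (TT A σ t y) := by
  refine DenseRange.induction_on h.dense x (isClosed_eq (by fun_prop) (by fun_prop)) fun c => ?_
  refine DenseRange.induction_on h.dense y (isClosed_eq (by fun_prop) (by fun_prop)) fun d => ?_
  rw [h.tt_apply ht, h.tt_apply ht, h.symm t ht]

theorem Sg.tt_pos (h : Sg A σ) (t : ℝ) (ht : 0 ≤ t) : (TT A σ t).IsPositive := by
  refine ⟨fun x y => h.tt_symm ht x y, fun x => ?_⟩
  have h1 : TT A σ t = TT A σ (t / 2) * TT A σ (t / 2) := by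
    rw [← h.tt_add _ _ (by linarith) (by linarith), add_halves]
  rw [ContinuousLinearMap.reApplyInnerSelf_apply, h1, mul_apply_eq_comp,
    h.tt_symm (by linarith)]
  exact inner_self_nonneg

theorem Sg.cont_A (h : Sg A σ) (c : V) : ContinuousOn (fun t => A (σ t c)) (Ici 0) := by
  intro t ht
  have ht0 : 0 ≤ t := ht
  rw [ContinuousWithinAt, tendsto_iff_norm_sub_tendsto_zero]
  -- the square of the norm
  have h1 : Tendsto (fun s => ‖A (σ s c) - A (σ t c)‖ ^ 2) (𝓝[Ici 0] t) (𝓝 0) := by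
    have h2 : ∀ s, 0 ≤ s → ‖A (σ s c) - A (σ t c)‖ ^ 2 =
        (inner ℂ (A c) (A (σ (s + s) c))).re - 2 * (inner ℂ (A c) (A (σ (s + t) c))).re +
          (inner ℂ (A c) (A (σ (t + t) c))).re := by
      intro s hs
      rw [← h.norm_sq hs, ← h.norm_sq ht0, ← h.inner_two hs ht0]
      exact norm_sub_sq (𝕜 := ℂ) _ _
    have h3 : ∀ g : ℝ → ℝ, Continuous g → (∀ s, 0 ≤ s → 0 ≤ g s) →
        Tendsto (fun s => (inner ℂ (A c) (A (σ (g s) c))).re) (𝓝[Ici 0] t)
          (𝓝 (inner ℂ (A c) (A (σ (g t) c))).re) := by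
      intro g hg hg0
      have h4 : Tendsto (fun s => inner ℂ (A c) (A (σ s c))) (𝓝[Ici 0] (g t))
          (𝓝 (inner ℂ (A c) (A (σ (g t) c)))) := h.cont c (g t) (hg0 t ht0)
      have h5 : Tendsto g (𝓝[Ici 0] t) (𝓝[Ici 0] (g t)) :=
        tendsto_nhdsWithin_iff.2 ⟨hg.continuousWithinAt, by
          filter_upwards [self_mem_nhdsWithin] with s hs using hg0 s hs⟩
      exact (Complex.continuous_re.tendsto _).comp (h4.comp h5)
    have h6 := ((h3 (fun s => s + s) (by fun_prop) (fun s hs => by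
      show 0 ≤ s + s
      linarith)).sub ((h3 (fun s => s + t) (by fun_prop) (fun s hs => by
      show 0 ≤ s + t
      linarith)).const_mul 2)).add
      (tendsto_const_nhds (x := (inner ℂ (A c) (A (σ (t + t) c))).re))
    have h7 : (inner ℂ (A c) (A (σ (t + t) c))).re - 2 * (inner ℂ (A c) (A (σ (t + t) c))).re +
        (inner ℂ (A c) (A (σ (t + t) c))).re = 0 := by ring
    rw [h7] at h6
    refine h6.congr' ?_
    filter_upwards [self_mem_nhdsWithin] with s hs
    exact (h2 s hs).symm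
  have h8 := (Real.continuous_sqrt.tendsto 0).comp h1
  rw [Real.sqrt_zero] at h8
  refine h8.congr fun s => ?_
  exact Real.sqrt_sq (norm_nonneg _)

theorem Sg.tt_cont (h : Sg A σ) (x : H) : ContinuousOn (fun t => TT A σ t x) (Ici 0) := by
  refine continuousOn_of_uniform_approx_of_continuousOn fun u hu => ?_
  obtain ⟨ε, hε, hu'⟩ := Metric.mem_uniformity_dist.1 hu
  obtain ⟨c, hc⟩ := Metric.denseRange_iff.1 h.dense x ε hε
  refine ⟨fun t => TT A σ t (A c), ?_, fun t ht => hu' ?_⟩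
  · refine (h.cont_A c).congr fun t ht => ?_
    exact h.tt_apply ht c
  · rw [dist_eq_norm, ← map_sub]
    calc ‖TT A σ t (x - A c)‖ ≤ ‖TT A σ t‖ * ‖x - A c‖ := ContinuousLinearMap.le_opNorm _ _
      _ ≤ 1 * ‖x - A c‖ := by
          gcongr
          exact h.tt_norm ht
      _ < ε := by
          rw [one_mul, ← dist_eq_norm]
          exact hc

end Semi

/-! ### The completion -/

/-- A positive kernel. -/
structure Ker (X : Type) where
  /-- the kernel -/
  K : X → X → ℂ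
  herm : ∀ x y, K x y = conj (K y x)
  pos : ∀ F : X →₀ ℂ, 0 ≤ (F.sum fun a x => F.sum fun b y => conj x * y * K a b).re

section Gns

variable {X : Type}

/-- The finitely supported functions. -/
def PV (_ : Ker X) : Type := X →₀ ℂ

noncomputable instance (κ : Ker X) : AddCommGroup (PV κ) := inferInstanceAs (AddCommGroup (X →₀ ℂ))

noncomputable instance (κ : Ker X) : Module ℂ (PV κ) := inferInstanceAs (Module ℂ (X →₀ ℂ))

/-- The form. -/
noncomputable def frm (κ : Ker X) (c d : X →₀ ℂ) : ℂ :=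
  c.sum fun a x => d.sum fun b y => conj x * y * κ.K a b

theorem frm_add (κ : Ker X) (c c' d : X →₀ ℂ) : frm κ (c + c') d = frm κ c d + frm κ c' d := by
  unfold frm
  refine Finsupp.sum_add_index' (fun a => ?_) (fun a x x' => ?_)
  · simp
  · rw [← Finsupp.sum_add]
    refine Finsupp.sum_congr fun b _ => ?_
    rw [map_add]
    ring

theorem frm_smul (κ : Ker X) (r : ℂ) (c d : X →₀ ℂ) :
    frm κ (r • c) d = conj r * frm κ c d := by
  unfold frm
  rw [Finsupp.sum_smul_index' (fun a => by simp), Finsupp.mul_sum]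
  refine Finsupp.sum_congr fun a _ => ?_
  rw [Finsupp.mul_sum]
  refine Finsupp.sum_congr fun b _ => ?_
  rw [smul_eq_mul, map_mul]
  ring

theorem frm_conj (κ : Ker X) (c d : X →₀ ℂ) : conj (frm κ d c) = frm κ c d := by
  unfold frm
  rw [Finsupp.sum_comm, Finsupp.sum, map_sum]
  refine Finset.sum_congr rfl fun a _ => ?_
  rw [Finsupp.sum, map_sum]
  refine Finset.sum_congr rfl fun b _ => ?_
  show conj (conj (d b) * c a * κ.K b a) = conj (c a) * d b * κ.K a b
  rw [κ.herm a b, map_mul, map_mul, Complex.conj_conj]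
  ring

/-- The inner product. -/
noncomputable abbrev core (κ : Ker X) : PreInnerProductSpace.Core ℂ (PV κ) where
  inner c d := frm κ c d
  conj_inner_symm c d := frm_conj κ c d
  re_inner_nonneg c := κ.pos c
  add_left c c' d := frm_add κ c c' d
  smul_left c d r := frm_smul κ r c d

noncomputable instance (κ : Ker X) : SeminormedAddCommGroup (PV κ) :=
  InnerProductSpace.Core.toSeminormedAddCommGroup (c := core κ)

noncomputable instance (κ : Ker X) : InnerProductSpace ℂ (PV κ) :=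
  InnerProductSpace.ofCore (core κ)

/-- The Hilbert space. -/
abbrev HV (κ : Ker X) : Type := UniformSpace.Completion (PV κ)

/-- The inclusion. -/
noncomputable def AV (κ : Ker X) : PV κ →ₗ[ℂ] HV κ :=
  (UniformSpace.Completion.toComplL : PV κ →L[ℂ] HV κ).toLinearMap

theorem AV_dense (κ : Ker X) : DenseRange (AV κ) :=
  (UniformSpace.Completion.denseRange_coe : DenseRange ((↑) : PV κ → HV κ))

theorem AV_inner (κ : Ker X) (c d : PV κ) : inner ℂ (AV κ c) (AV κ d) = frm κ c d := by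
  have h1 : inner ℂ (AV κ c) (AV κ d) = inner ℂ (c : HV κ) (d : HV κ) := rfl
  rw [h1, UniformSpace.Completion.inner_coe]
  rfl

/-- The vectors. -/
noncomputable def JV (κ : Ker X) (x : X) : HV κ := AV κ (Finsupp.single x 1 : X →₀ ℂ)

/-- The shifts. -/
noncomputable def sg (κ : Ker X) (sh : ℝ → X → X) (t : ℝ) : PV κ →ₗ[ℂ] PV κ :=
  (Finsupp.lmapDomain ℂ ℂ (sh t) : (X →₀ ℂ) →ₗ[ℂ] (X →₀ ℂ))

theorem sg_apply (κ : Ker X) (sh : ℝ → X → X) (t : ℝ) (c : PV κ) :
    sg κ sh t c = Finsupp.mapDomain (sh t) (c : X →₀ ℂ) := rfl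

theorem frm_map_left (κ : Ker X) (f : X → X) (c d : X →₀ ℂ) :
    frm κ (Finsupp.mapDomain f c) d =
      c.sum fun a x => d.sum fun b y => conj x * y * κ.K (f a) b := by
  unfold frm
  refine Finsupp.sum_mapDomain_index (fun a => ?_) (fun a x x' => ?_)
  · simp
  · rw [← Finsupp.sum_add]
    refine Finsupp.sum_congr fun b _ => ?_
    rw [map_add]
    ring

theorem frm_map_right (κ : Ker X) (f : X → X) (c d : X →₀ ℂ) :
    frm κ c (Finsupp.mapDomain f d) =
      c.sum fun a x => d.sum fun b y => conj x * y * κ.K a (f b) := by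
  unfold frm
  refine Finsupp.sum_congr fun a _ => ?_
  refine Finsupp.sum_mapDomain_index (fun b => ?_) (fun b x x' => ?_)
  · simp
  · ring

theorem bdd_aux (κ : Ker X) (sh : ℝ → X → X)
    (hbdd : ∀ x y, ∃ M : ℝ, ∀ t, 0 ≤ t → ‖κ.K x (sh t y)‖ ≤ M) (c : X →₀ ℂ) :
    ∃ M : ℝ, ∀ t, 0 ≤ t → ‖frm κ c (Finsupp.mapDomain (sh t) c)‖ ≤ M := by
  choose M hM using hbdd
  refine ⟨∑ a ∈ c.support, ∑ b ∈ c.support, ‖c a‖ * ‖c b‖ * M a b, fun t ht => ?_⟩
  rw [frm_map_right]
  refine norm_sum_le_of_le _ fun a _ => norm_sum_le_of_le _ fun b _ => ?_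
  rw [norm_mul, norm_mul, RCLike.norm_conj]
  gcongr
  exact hM a b t ht

theorem cont_aux (κ : Ker X) (sh : ℝ → X → X)
    (hcont : ∀ x y, ContinuousOn (fun t => κ.K x (sh t y)) (Ici 0)) (c : X →₀ ℂ) :
    ContinuousOn (fun t => frm κ c (Finsupp.mapDomain (sh t) c)) (Ici 0) := by
  have h1 : (fun t => frm κ c (Finsupp.mapDomain (sh t) c)) =
      fun t => ∑ a ∈ c.support, ∑ b ∈ c.support, conj (c a) * c b * κ.K a (sh t b) := by
    funext t
    rw [frm_map_right]
    rfl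
  rw [h1]
  exact continuousOn_finsetSum _ fun a _ => continuousOn_finsetSum _ fun b _ =>
    continuousOn_const.mul (hcont a b)

theorem JV_dense (κ : Ker X) : Dense (Submodule.span ℂ (range (JV κ)) : Set (HV κ)) := by
  refine Dense.mono ?_ (AV_dense κ)
  rintro _ ⟨c, rfl⟩
  induction c using Finsupp.induction_linear with
  | zero => 
    have : AV κ (0 : PV κ) = 0 := map_zero _
    rw [show (AV κ) (0 : X →₀ ℂ) = 0 from this]
    exact Submodule.zero_mem _
  | add c d hc hd =>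
    have : AV κ ((c + d : X →₀ ℂ) : PV κ) = AV κ (c : PV κ) + AV κ (d : PV κ) :=
      map_add (AV κ) (c : PV κ) (d : PV κ)
    rw [this]
    exact Submodule.add_mem _ hc hd
  | single a x =>
    have h1 : (Finsupp.single a x : X →₀ ℂ) = x • (Finsupp.single a 1 : X →₀ ℂ) := by
      rw [Finsupp.smul_single, smul_eq_mul, mul_one]
    have h2 : AV κ ((x • (Finsupp.single a 1 : X →₀ ℂ) : X →₀ ℂ) : PV κ) = x • JV κ a :=
      map_smul (AV κ) x ((Finsupp.single a 1 : X →₀ ℂ) : PV κ)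
    rw [h1, h2]
    exact Submodule.smul_mem _ _ (Submodule.subset_span ⟨a, rfl⟩)

theorem sg_sg (κ : Ker X) (sh : ℝ → X → X) (h0 : ∀ x, sh 0 x = x)
    (hadd : ∀ s t, 0 ≤ s → 0 ≤ t → ∀ x, sh (s + t) x = sh s (sh t x))
    (hsymm : ∀ t, 0 ≤ t → ∀ x y, κ.K (sh t x) y = κ.K x (sh t y))
    (hbdd : ∀ x y, ∃ M : ℝ, ∀ t, 0 ≤ t → ‖κ.K x (sh t y)‖ ≤ M)
    (hcont : ∀ x y, ContinuousOn (fun t => κ.K x (sh t y)) (Ici 0)) :
    Sg (AV κ) (sg κ sh) where
  dense := AV_dense κ
  zero c := by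
    rw [sg_apply]
    have : sh 0 = id := funext h0
    rw [this]
    exact Finsupp.mapDomain_id
  add s t hs ht c := by
    rw [sg_apply, sg_apply, sg_apply]
    have : sh (s + t) = sh s ∘ sh t := funext (hadd s t hs ht)
    rw [this]
    exact Finsupp.mapDomain_comp
  symm t ht c d := by
    rw [AV_inner, AV_inner, sg_apply, sg_apply, frm_map_left, frm_map_right]
    refine Finsupp.sum_congr fun a _ => Finsupp.sum_congr fun b _ => ?_
    rw [hsymm t ht]
  bdd c := by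
    obtain ⟨M, hM⟩ := bdd_aux κ sh hbdd c
    refine ⟨M, fun t ht => ?_⟩
    rw [AV_inner]
    exact hM t ht
  cont c := by
    refine (cont_aux κ sh hcont c).congr fun t _ => ?_
    exact AV_inner κ _ _

end Gns

/-- **Task OSA.** -/
theorem osa : S_OSA := by
  intro X K sh o hherm hpos h0 hadd hsymm hbdd hcont hvac hone
  obtain ⟨κ, hκ⟩ : ∃ κ : Ker X, κ.K = K := ⟨⟨K, hherm, hpos⟩, rfl⟩
  subst hκ
  have S := sg_sg κ sh h0 hadd hsymm hbdd hcont
  have hJ : ∀ x y, inner ℂ (JV κ x) (JV κ y) = κ.K x y := by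
    intro x y
    rw [JV, JV, AV_inner]
    unfold frm
    rw [Finsupp.sum_single_index, Finsupp.sum_single_index]
    · simp
    · simp
    · simp
  have hsh : ∀ t, 0 ≤ t → ∀ x, TT (AV κ) (sg κ sh) t (JV κ x) = JV κ (sh t x) := by
    intro t ht x
    rw [JV, S.tt_apply ht, sg_apply]
    have h1 : Finsupp.mapDomain (sh t) (Finsupp.single x 1 : X →₀ ℂ) = Finsupp.single (sh t x) 1 :=
      Finsupp.mapDomain_single
    rw [h1]
    rfl
  refine ⟨HV κ, inferInstance, inferInstance, inferInstance, JV κ, TT (AV κ) (sg κ sh), hJ,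
    JV_dense κ, hsh, ?_⟩
  exact
    { zero := S.tt_zero
      add := S.tt_add
      cont := S.tt_cont
      pos := S.tt_pos
      norm := fun t ht => S.tt_norm ht
      vac := fun t ht => by rw [hsh t ht, hvac t ht]
      one := by
        have h1 := norm_sq_eq_re_inner (𝕜 := ℂ) (JV κ o)
        rw [hJ, hone] at h1
        have h2 : ‖JV κ o‖ ^ 2 = 1 := by
          rw [h1]; simp
        have h3 := norm_nonneg (JV κ o)
        nlinarith }

end Pool.Agent.H870.SLB
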